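import Pool.Agent.Lib.MP_08e409_gt.Space

/-!
# MP_08e409_gt: a Lindelöf space of point-countable type without perfect maps onto first countable
spaces (or onto spaces whose points are G-delta sets)
-/

set_option autoImplicit false

namespace Pool.Agent.Results.MP_08e409_gt.LindelofExample

universe u v

/-- The subset `K` has countable character in `X`: there are open sets `U 0, U 1, ...` containing `K`
such that every open set containing `K` contains some `U n`. -/
def CountableCharacter {X : Type u} [TopologicalSpace X] (K : Set X) : Prop :=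
  ∃ U : ℕ → Set X, (∀ n, IsOpen (U n) ∧ K ⊆ U n) ∧ ∀ V : Set X, IsOpen V → K ⊆ V → ∃ n, U n ⊆ V

/-- `X` is of point-countable type: every point lies in a compact set of countable character. -/
def PointCountableType (X : Type u) [TopologicalSpace X] : Prop :=
  ∀ x : X, ∃ K : Set X, IsCompact K ∧ x ∈ K ∧ CountableCharacter K

/-- `f` is perfect: continuous, closed, surjective, with compact fibres. -/
def IsPerfect {X : Type u} {Y : Type v} [TopologicalSpace X] [TopologicalSpace Y] (f : X → Y) :
    Prop :=
  Continuous f ∧ IsClosedMap f ∧ Function.Surjective f ∧ ∀ y : Y, IsCompact (f ⁻¹' {y})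

/-- There is a Hausdorff, Lindelöf, paracompact space `X` of point-countable type (with points in the
lowest universe) such that there is no perfect map from `X` onto any first countable space `Y` in any
universe (Hausdorff or not), nor onto any space `Y` in which every one-point set is a `G_δ`. -/
theorem result : ∃ (X : Type) (_ : TopologicalSpace X),
    T2Space X ∧ LindelofSpace X ∧ ParacompactSpace X ∧ PointCountableType X ∧
    (∀ (Y : Type v) [TopologicalSpace Y], FirstCountableTopology Y → ¬ ∃ f : X → Y, IsPerfect f) ∧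
    ∀ (Y : Type v) [TopologicalSpace Y], (∀ y : Y, IsGδ ({y} : Set Y)) →
      ¬ ∃ f : X → Y, IsPerfect f := by
  have hmain : ∀ (Y : Type v) [TopologicalSpace Y], (∀ y : Y, IsGδ ({y} : Set Y)) →
      ¬ ∃ f : Pool.Agent.Lib.PCType.X → Y, IsPerfect f := by
    rintro Y _ hG ⟨f, hf, hfc, -, hK⟩
    exact Pool.Agent.Lib.PCType.no_perfect_map hG hf hfc hK
  have hL := Pool.Agent.Lib.PCType.lindelof_X
  refine ⟨Pool.Agent.Lib.PCType.X, inferInstance, inferInstance, hL,
    Pool.Agent.Lib.PCType.paracompact_of_lindelof _, ?_, ?_, hmain⟩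
  · intro x
    refine ⟨Pool.Agent.Lib.PCType.slice x.pt, Pool.Agent.Lib.PCType.isCompact_slice _, rfl, ?_⟩
    obtain ⟨B, hB⟩ := (nhdsSet (Pool.Agent.Lib.PCType.slice x.pt)).exists_antitone_basis
    refine ⟨fun n => interior (B n), fun n => ⟨isOpen_interior, ?_⟩, fun V hV hKV => ?_⟩
    · exact subset_interior_iff_mem_nhdsSet.2 (hB.mem n)
    · obtain ⟨n, -, hn⟩ := hB.1.mem_iff.1 (hV.mem_nhdsSet.2 hKV)
      exact ⟨n, interior_subset.trans hn⟩
  · rintro Y _ hY ⟨f, hf⟩
    have h1 : T1Space Y := ⟨fun y => by
      obtain ⟨x, rfl⟩ := hf.2.2.1 y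
      rw [← Set.image_singleton]
      exact hf.2.1 _ isClosed_singleton⟩
    exact hmain Y (fun y => IsGδ.singleton y) ⟨f, hf⟩

end Pool.Agent.Results.MP_08e409_gt.LindelofExample
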